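import Pool.Agent.T9h20.SC.Spec2

/-!
Every partition belongs to the same number of permutations (P10).
-/

namespace Pool.Agent.T9h20.SC

open Finset

/-- Preimage of a set under a permutation. -/
def preim {n : ℕ} (σ : Equiv.Perm (Fin n)) (A : Finset (Fin n)) : Finset (Fin n) :=
  univ.filter (fun i => σ i ∈ A)

lemma mem_preim {n : ℕ} {σ : Equiv.Perm (Fin n)} {A : Finset (Fin n)} {i : Fin n} :
    i ∈ preim σ A ↔ σ i ∈ A := by
  unfold preim
  simp

lemma preim_injective {n : ℕ} (σ : Equiv.Perm (Fin n)) : Function.Injective (preim σ) := by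
  intro A B h
  ext i
  have h1 : σ.symm i ∈ preim σ A ↔ σ.symm i ∈ preim σ B := by rw [h]
  rw [mem_preim, mem_preim, Equiv.apply_symm_apply] at h1
  exact h1

lemma part_mul {k s : ℕ} (π σ : Equiv.Perm (Fin (k * s))) :
    part k s (π * σ) = (part k s π).image (preim σ) := by
  unfold part
  rw [image_image]
  apply Finset.image_congr
  intro c _
  ext i
  rw [Function.comp_apply, mem_preim, mem_filter, mem_filter, Equiv.Perm.mul_apply]
  simp

lemma exists_perm {k s : ℕ} (ℱ : Finset (Finset (Fin (k * s)))) (h : IsPartition k s ℱ) :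
    ∃ π, part k s π = ℱ := by
  classical
  obtain ⟨hk, hs, hu⟩ := h
  obtain ⟨e⟩ : Nonempty (Fin k ≃ {A // A ∈ ℱ}) := by
    refine ⟨(Fintype.equivFinOfCardEq ?_).symm⟩
    rw [Fintype.card_coe, hk]
  have hes : ∀ c : Fin k, Nonempty (Fin s ≃ {i // i ∈ (e c).1}) := by
    intro c
    refine ⟨(Fintype.equivFinOfCardEq ?_).symm⟩
    rw [Fintype.card_coe, hs _ (e c).2]
  obtain ⟨d⟩ : Nonempty (∀ c : Fin k, Fin s ≃ {i // i ∈ (e c).1}) :=
    ⟨fun c => Classical.choice (hes c)⟩
  obtain ⟨g, hg⟩ : ∃ g : Fin k × Fin s → Fin (k * s), g = fun q => (d q.1 q.2).1 := ⟨_, rfl⟩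
  have hgmem : ∀ q, g q ∈ (e q.1).1 := by
    intro q
    rw [hg]
    exact (d q.1 q.2).2
  have huniq : ∀ c c' : Fin k, ∀ i, i ∈ (e c).1 → i ∈ (e c').1 → c = c' := by
    intro c c' i h1 h2
    apply e.injective
    apply Subtype.ext
    exact (hu i).unique ⟨(e c).2, h1⟩ ⟨(e c').2, h2⟩
  have hinj : Function.Injective g := by
    rintro ⟨c, j⟩ ⟨c', j'⟩ h
    have h1 := hgmem (c, j)
    have h2 := hgmem (c', j')
    rw [h] at h1
    have h3 : c = c' := huniq c c' _ h1 h2
    subst h3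
    rw [hg] at h
    have h4 : j = j' := (d c).injective (Subtype.ext h)
    rw [h4]
  have hbij : Function.Bijective g := by
    rw [Fintype.bijective_iff_injective_and_card]
    refine ⟨hinj, ?_⟩
    simp
  obtain ⟨E, hE⟩ : ∃ E : Fin k × Fin s ≃ Fin (k * s), ∀ q, E q = g q :=
    ⟨Equiv.ofBijective g hbij, fun q => rfl⟩
  refine ⟨E.symm.trans finProdFinEquiv, ?_⟩
  have hcls : ∀ i, cls k s ((E.symm.trans finProdFinEquiv) i) = (E.symm i).1 := by
    intro i
    unfold cls
    simp
  have hblk : ∀ c : Fin k, univ.filter (fun i => cls k s ((E.symm.trans finProdFinEquiv) i) = c)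
      = (e c).1 := by
    intro c
    ext i
    rw [mem_filter, hcls]
    have h1 : i ∈ (e (E.symm i).1).1 := by
      have h2 := hgmem (E.symm i)
      rw [← hE, Equiv.apply_symm_apply] at h2
      exact h2
    constructor
    · rintro ⟨_, rfl⟩
      exact h1
    · intro h2
      exact ⟨mem_univ _, huniq _ _ i h1 h2⟩
  unfold part
  simp only [hblk]
  ext A
  rw [mem_image]
  constructor
  · rintro ⟨c, _, rfl⟩
    exact (e c).2
  · intro hA
    refine ⟨e.symm ⟨A, hA⟩, mem_univ _, ?_⟩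
    rw [Equiv.apply_symm_apply]

theorem stUniform : StUniform := by
  classical
  intro k s hs 𝒬 h𝒬
  obtain ⟨m, hm⟩ : ∃ m, m = (univ.filter (fun π : Equiv.Perm (Fin (k * s)) =>
    part k s π = part k s 1)).card := ⟨_, rfl⟩
  have hfib : ∀ ℱ, IsPartition k s ℱ →
      (univ.filter (fun π : Equiv.Perm (Fin (k * s)) => part k s π = ℱ)).card = m := by
    intro ℱ hℱ
    obtain ⟨σ, hσ⟩ := exists_perm ℱ hℱ
    rw [hm]
    symm
    apply Finset.card_bij (fun π _ => π * σ)
    · intro π hπ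
      rw [mem_filter] at hπ ⊢
      refine ⟨mem_univ _, ?_⟩
      rw [part_mul, hπ.2, ← part_mul, one_mul, hσ]
    · intro π _ π' _ h
      exact mul_right_cancel h
    · intro π hπ
      refine ⟨π * σ⁻¹, ?_, by simp⟩
      rw [mem_filter] at hπ ⊢
      refine ⟨mem_univ _, ?_⟩
      apply Finset.image_injective (preim_injective σ)
      rw [← part_mul, ← part_mul, one_mul, hσ]
      simpa using hπ.2
  have hsum : ∀ 𝒜 : Finset (Finset (Finset (Fin (k * s)))), (∀ ℱ ∈ 𝒜, IsPartition k s ℱ) →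
      (univ.filter (fun π : Equiv.Perm (Fin (k * s)) => part k s π ∈ 𝒜)).card = 𝒜.card * m := by
    intro 𝒜 h𝒜
    rw [Finset.card_eq_sum_card_fiberwise (f := part k s) (t := 𝒜)
      (fun π hπ => mem_coe.2 (mem_filter.1 (mem_coe.1 hπ)).2)]
    rw [Finset.sum_congr rfl (g := fun _ => m)]
    · rw [sum_const, smul_eq_mul]
    · intro ℱ hℱ
      rw [← hfib ℱ (h𝒜 ℱ hℱ)]
      congr 1
      ext π
      simp only [mem_filter, mem_univ, true_and]
      constructor
      · exact fun h => h.2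
      · intro h
        exact ⟨h ▸ hℱ, h⟩
  have h1 := hsum 𝒬 h𝒬
  have h2 := hsum (univ.filter (fun ℱ : Finset (Finset (Fin (k * s))) => IsPartition k s ℱ))
    (fun ℱ hℱ => (mem_filter.1 hℱ).2)
  have h3 : (univ.filter (fun π : Equiv.Perm (Fin (k * s)) => part k s π ∈
      (univ.filter (fun ℱ : Finset (Finset (Fin (k * s))) => IsPartition k s ℱ)))) = univ := by
    ext π
    simp only [mem_filter, mem_univ, true_and, iff_true]
    exact part_isPartition k s hs π
  rw [h3, card_univ, Fintype.card_perm, Fintype.card_fin] at h2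
  rw [h1, h2]
  ring

end Pool.Agent.T9h20.SC
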