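import Pool.Agent.T9h20.SC.Spec

/-!
Basic facts about refinement and the events.
-/

namespace Pool.Agent.T9h20.SC

open Finset

set_option linter.unusedSectionVars false

variable {n : ℕ} {Λ : Type} [DecidableEq Λ] [Zero Λ]

lemma Ref.refl' (τ : Fin n → Λ) : Ref τ τ := ⟨fun _ _ h => h, fun _ h => h⟩

lemma Ref.trans' {a b c : Fin n → Λ} (h1 : Ref a b) (h2 : Ref b c) : Ref a c :=
  ⟨fun i j h => h2.1 i j (h1.1 i j h), fun i h => h2.2 i (h1.2 i h)⟩

lemma Ref.of_comp {τ : Fin n → Λ} {φ : Λ → Λ} (hφ : φ 0 = 0) {s : Fin n → Λ}
    (h : ∀ j, φ (τ j) = s j) : Ref τ s := by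
  refine ⟨fun i j hij => ?_, fun i hi => ?_⟩
  · rw [← h i, ← h j, hij]
  · rw [← h i, hi, hφ]

lemma Ev.mono [Fintype Λ] {p : ℕ} {w : Fin n → ZMod p} {τ s : Fin n → Λ} (h : Ev w τ)
    (hr : Ref τ s) : Ev w s := by
  intro c hc
  rw [← Finset.sum_fiberwise (univ.filter (fun i => s i = c)) τ w]
  apply Finset.sum_eq_zero
  intro a _
  by_cases hne : ∃ i, s i = c ∧ τ i = a
  · obtain ⟨i, h1, h2⟩ := hne
    have ha : a ≠ 0 := by
      rintro rfl
      exact hc (h1 ▸ hr.2 i h2)
    have e : (univ.filter (fun i => s i = c)).filter (fun i => τ i = a)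
        = univ.filter (fun i => τ i = a) := by
      ext j
      simp only [mem_filter, mem_univ, true_and, and_iff_right_iff_imp]
      intro hj
      rw [← h1]
      exact hr.1 j i (hj.trans h2.symm)
    rw [e]
    exact h a ha
  · have e : (univ.filter (fun i => s i = c)).filter (fun i => τ i = a) = ∅ := by
      ext j
      simp only [mem_filter, mem_univ, true_and, notMem_empty, iff_false]
      exact fun hj => hne ⟨j, hj⟩
    rw [e]
    exact Finset.sum_empty

/-- Merging the label `b` into the label `a`. -/
def mg (a b : Λ) (c : Λ) : Λ := if c = b then a else c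

lemma Ev.of_merge {p : ℕ} {w : Fin n → ZMod p} {τ : Fin n → Λ} {a b : Λ} (hab : a ≠ b)
    (h : Ev w (fun j => mg a b (τ j)))
    (hb : ∑ j ∈ univ.filter (fun j => τ j = b), w j = 0) : Ev w τ := by
  intro c hc
  by_cases hcb : c = b
  · rw [hcb]; exact hb
  · have h1 := h c hc
    by_cases hca : c = a
    · subst hca
      have e : univ.filter (fun j => mg c b (τ j) = c)
          = univ.filter (fun j => τ j = c) ∪ univ.filter (fun j => τ j = b) := by
        ext j
        simp only [mem_filter, mem_univ, true_and, mem_union]
        unfold mg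
        split_ifs with hj
        · simp [hj]
        · simp [hj]
      rw [e, Finset.sum_union, hb, add_zero] at h1
      · exact h1
      · rw [Finset.disjoint_left]
        intro j hj hj'
        simp only [mem_filter, mem_univ, true_and] at hj hj'
        exact hab (hj.symm.trans hj')
    · have e : univ.filter (fun j => mg a b (τ j) = c) = univ.filter (fun j => τ j = c) := by
        ext j
        simp only [mem_filter, mem_univ, true_and]
        unfold mg
        split_ifs with hj
        · constructor
          · intro h2
            exact absurd h2.symm hca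
          · intro h2
            exact absurd (h2.symm.trans hj) hcb
        · rfl
      rw [e] at h1
      exact h1

/-- If two functions agree outside `S` and have the same sum over `S`, and `τ` is constant on `S`,
then the class sums are the same. -/
lemma classSum_congr {p : ℕ} {w w' : Fin n → ZMod p} {τ : Fin n → Λ} {S : Finset (Fin n)} {a : Λ}
    (hτ : ∀ j ∈ S, τ j = a) (hw : ∀ j, j ∉ S → w j = w' j)
    (hs : ∑ j ∈ S, w j = ∑ j ∈ S, w' j) (c : Λ) :
    ∑ j ∈ univ.filter (fun j => τ j = c), w j = ∑ j ∈ univ.filter (fun j => τ j = c), w' j := by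
  have key : ∀ v : Fin n → ZMod p, ∑ j ∈ univ.filter (fun j => τ j = c), v j
      = (if a = c then ∑ j ∈ S, v j else 0)
        + ∑ j ∈ univ.filter (fun j => τ j = c ∧ j ∉ S), v j := by
    intro v
    have e1 := Finset.sum_filter_add_sum_filter_not (univ.filter (fun j => τ j = c))
      (fun j => j ∈ S) v
    rw [← e1]
    congr 1
    · split_ifs with hac
      · apply Finset.sum_congr _ (fun _ _ => rfl)
        ext j
        simp only [mem_filter, mem_univ, true_and, and_iff_right_iff_imp]
        intro hj
        rw [hτ j hj, hac]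
      · apply Finset.sum_eq_zero
        intro j hj
        simp only [mem_filter, mem_univ, true_and] at hj
        exact absurd ((hτ j hj.2).symm.trans hj.1) hac
    · apply Finset.sum_congr _ (fun _ _ => rfl)
      ext j
      simp only [mem_filter, mem_univ, true_and]
  rw [key w, key w', hs]
  congr 1
  apply Finset.sum_congr rfl
  intro j hj
  simp only [mem_filter, mem_univ, true_and] at hj
  exact hw j hj.2

end Pool.Agent.T9h20.SC
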