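import Pool.Agent.T9h20.SC.Basic

/-!
The main counting lemma: the linear sunflower lemma for partial partitions.
-/

namespace Pool.Agent.T9h20.SC

open Finset

set_option linter.unusedSectionVars false

variable {n : ℕ} {Λ : Type} [Fintype Λ] [DecidableEq Λ] [Zero Λ]

/-- The pattern which is `b` on `J` and `a` elsewhere. -/
def pat (J : Finset (Fin n)) (a b : Λ) (j : Fin n) : Λ := if j ∈ J then b else a

open Classical in
/-- The terms with a given pattern on `S`. -/
noncomputable def sub {α : Type} (I : Finset α) (t : α → Fin n → Λ) (S J : Finset (Fin n))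
    (a b : Λ) : Finset α := I.filter (fun i => ∀ j ∈ S, t i j = pat J a b j)

lemma mem_sub {α : Type} {I : Finset α} {t : α → Fin n → Λ} {S J : Finset (Fin n)}
    {a b : Λ} {i : α} : i ∈ sub I t S J a b ↔ i ∈ I ∧ ∀ j ∈ S, t i j = pat J a b j := by
  classical
  unfold sub
  rw [mem_filter]

open Classical in
/-- The `w` for which the event of `s` occurs, but none of the events of the terms. -/
noncomputable def bad (p : ℕ) [Fact p.Prime] {α : Type} (I : Finset α) (t : α → Fin n → Λ)
    (s : Fin n → Λ) : Finset (Fin n → ZMod p) :=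
  univ.filter (fun w : Fin n → ZMod p => Ev w s ∧ ∀ i ∈ I, ¬ Ev w (t i))

lemma mem_bad {p : ℕ} [Fact p.Prime] {α : Type} {I : Finset α} {t : α → Fin n → Λ}
    {s : Fin n → Λ} {w : Fin n → ZMod p} :
    w ∈ bad p I t s ↔ Ev w s ∧ ∀ i ∈ I, ¬ Ev w (t i) := by
  classical
  unfold bad
  rw [mem_filter]
  exact ⟨fun h => h.2, fun h => ⟨mem_univ _, h⟩⟩

/-- One step: the events of the terms follow from those of the merged terms, up to few exceptions. -/
lemma step_count (p : ℕ) [Fact p.Prime] (G : ℕ) (S : Finset (Fin n))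
    (hG : ∀ (Y : Finset (Fin n → ZMod p)),
      (∀ w ∈ Y, ∀ w' ∈ Y, ∀ j, j ∉ S → w j = w' j) →
      (∀ J ⊆ S, ∃ y, ∀ w ∈ Y, ∑ j ∈ J, w j ≠ y) → Y.card ≤ G)
    {a b : Λ} (hab : a ≠ b) {α : Type} (I : Finset α) (t : α → Fin n → Λ) (s : Fin n → Λ) :
    (bad p I t s).card ≤
      ∑ J ∈ S.powerset, (bad p (sub I t S J a b) (fun i j => mg a b (t i j)) s).card
        + p ^ (n + 1 - S.card) * G := by
  classical
  obtain ⟨Zs, hZs⟩ : ∃ Zs, Zs = (bad p I t s).filter (fun w => ∀ J ⊆ S,
    ∃ i ∈ sub I t S J a b, Ev w (fun j => mg a b (t i j))) := ⟨_, rfl⟩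
  have hsub : bad p I t s ⊆
      (S.powerset.biUnion (fun J => bad p (sub I t S J a b) (fun i j => mg a b (t i j)) s)) ∪ Zs := by
    intro w hw
    by_cases h : ∀ J ⊆ S, ∃ i ∈ sub I t S J a b, Ev w (fun j => mg a b (t i j))
    · apply mem_union_right
      rw [hZs]
      exact mem_filter.2 ⟨hw, h⟩
    · apply mem_union_left
      push Not at h
      obtain ⟨J, hJ, h⟩ := h
      rw [mem_biUnion]
      exact ⟨J, mem_powerset.2 hJ, mem_bad.2 ⟨(mem_bad.1 hw).1, h⟩⟩
  refine (card_le_card hsub).trans ((card_union_le _ _).trans ?_)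
  refine Nat.add_le_add card_biUnion_le ?_
  -- the exceptional set
  obtain ⟨F, hF⟩ : ∃ F : (Fin n → ZMod p) → ({j // j ∉ S} → ZMod p) × ZMod p,
    F = fun w => (fun j => w j.1, ∑ j ∈ S, w j) := ⟨_, rfl⟩
  have hfib : ∀ q ∈ (univ : Finset (({j // j ∉ S} → ZMod p) × ZMod p)),
      (Zs.filter (fun w => F w = q)).card ≤ G := by
    intro q _
    apply hG
    · intro w hw w' hw' j hj
      have e1 := (mem_filter.1 hw).2
      have e2 := (mem_filter.1 hw').2
      have e3 := congrArg Prod.fst (e1.trans e2.symm)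
      rw [hF] at e3
      exact congrFun e3 ⟨j, hj⟩
    · intro J hJ
      rcases (Zs.filter (fun w => F w = q)).eq_empty_or_nonempty with h | ⟨w0, hw0⟩
      · refine ⟨0, fun w hw => ?_⟩
        rw [h] at hw
        exact absurd hw (notMem_empty _)
      · have hw0' := (mem_filter.1 hw0).1
        rw [hZs] at hw0'
        obtain ⟨i, hi, hEi⟩ := (mem_filter.1 hw0').2 J hJ
        obtain ⟨hiI, hiS⟩ := mem_sub.1 hi
        refine ⟨- ∑ j ∈ univ.filter (fun j => t i j = b ∧ j ∉ S), w0 j, ?_⟩
        intro w hw hsum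
        have e1 := (mem_filter.1 hw).2
        have e2 := (mem_filter.1 hw0).2
        have e3 := e1.trans e2.symm
        have hout : ∀ j, j ∉ S → w j = w0 j := by
          intro j hj
          have e4 := congrArg Prod.fst e3
          rw [hF] at e4
          exact congrFun e4 ⟨j, hj⟩
        have hin : ∑ j ∈ S, w j = ∑ j ∈ S, w0 j := by
          have e4 := congrArg Prod.snd e3
          rw [hF] at e4
          exact e4
        have hmg : ∀ j ∈ S, mg a b (t i j) = a := by
          intro j hj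
          rw [hiS j hj]
          unfold mg pat
          by_cases hj' : j ∈ J
          · simp [hj']
          · simp [hj']
        have hE : Ev w (fun j => mg a b (t i j)) := by
          intro c hc
          rw [classSum_congr (τ := fun j => mg a b (t i j)) hmg hout hin c]
          exact hEi c hc
        have hwZ := (mem_filter.1 hw).1
        rw [hZs] at hwZ
        apply (mem_bad.1 (mem_filter.1 hwZ).1).2 i hiI
        apply Ev.of_merge hab hE
        have e5 := Finset.sum_filter_add_sum_filter_not (univ.filter (fun j => t i j = b))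
          (fun j => j ∈ S) w
        rw [← e5]
        have e6 : (univ.filter (fun j => t i j = b)).filter (fun j => j ∈ S) = J := by
          ext j
          simp only [mem_filter, mem_univ, true_and]
          constructor
          · rintro ⟨h1, h2⟩
            rw [hiS j h2] at h1
            by_contra hcon
            unfold pat at h1
            rw [if_neg hcon] at h1
            exact hab h1
          · intro hj
            refine ⟨?_, hJ hj⟩
            rw [hiS j (hJ hj)]
            unfold pat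
            rw [if_pos hj]
        have e7 : (univ.filter (fun j => t i j = b)).filter (fun j => ¬ j ∈ S)
            = univ.filter (fun j => t i j = b ∧ j ∉ S) := by
          ext j
          simp only [mem_filter, mem_univ, true_and]
        rw [e6, e7, hsum]
        have e8 : ∑ j ∈ univ.filter (fun j => t i j = b ∧ j ∉ S), w j
            = ∑ j ∈ univ.filter (fun j => t i j = b ∧ j ∉ S), w0 j := by
          apply Finset.sum_congr rfl
          intro j hj
          exact hout j (mem_filter.1 hj).2.2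
        rw [e8, neg_add_cancel]
  have h2 := Finset.card_eq_sum_card_fiberwise (f := F) (s := Zs) (t := univ)
    (fun _ _ => mem_coe.2 (mem_univ _))
  rw [h2]
  refine (Finset.sum_le_card_nsmul _ _ G hfib).trans (le_of_eq ?_)
  rw [smul_eq_mul]
  congr 1
  have hle : S.card ≤ n := by
    simpa using card_le_univ S
  rw [card_univ, Fintype.card_prod, Fintype.card_fun, ZMod.card, Fintype.card_subtype_compl]
  simp only [Fintype.card_fin, Fintype.card_coe]
  rw [← pow_succ]
  congr 1
  omega

/-- The counting lemma, in terms of `bad`. -/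
theorem claim_aux (hSh : StShatter) (p : ℕ) [Fact p.Prime] (X K k G : ℕ) (hX : 1 ≤ X)
    (hk : 1 ≤ k)
    (hK : 2 * X ^ (Fintype.card Λ ^ 2 * k) * (X + Fintype.card Λ ^ 2) ^ n ≤ K * X ^ n)
    (hG : ∀ (S : Finset (Fin n)) (Y : Finset (Fin n → ZMod p)),
      (∀ w ∈ Y, ∀ w' ∈ Y, ∀ j, j ∉ S → w j = w' j) →
      (∀ J ⊆ S, ∃ y, ∀ w ∈ Y, ∑ j ∈ J, w j ≠ y) → Y.card ≤ G)
    {α : Type} (m : ℕ) : ∀ (A : Finset Λ), A.card ≤ m → ∀ (I : Finset α) (t : α → Fin n → Λ)
    (s : Fin n → Λ) (φ : Λ → Λ), φ 0 = 0 → (∀ i ∈ I, ∀ j, φ (t i j) = s j) →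
    (∀ i ∈ I, ∀ j, t i j ∈ A) → I.Nonempty →
    (∀ s' : Fin n → Λ, Ref s' s → ¬ Ref s s' → ∀ I' ⊆ I, (∀ i ∈ I', Ref (t i) s') →
      I'.card * K ^ m ≤ I.card) →
    (bad p I t s).card ≤ (2 ^ k + 1) ^ m * (p ^ (n + 1 - k) * G) := by
  classical
  have hKpos : 1 ≤ K := by
    rcases Nat.eq_zero_or_pos K with h | h
    · exfalso
      rw [h, zero_mul] at hK
      have : 0 < 2 * X ^ (Fintype.card Λ ^ 2 * k) * (X + Fintype.card Λ ^ 2) ^ n := by positivity
      omega
    · exact h
  induction m with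
  | zero =>
    intro A hA I t s φ _ _ hIA hI _
    obtain ⟨i0, hi0⟩ := hI
    have he : bad p I t s = ∅ := by
      rw [Finset.eq_empty_iff_forall_notMem]
      intro w hw
      apply (mem_bad.1 hw).2 i0 hi0
      intro c _
      apply Finset.sum_eq_zero
      intro j _
      have h1 := hIA i0 hi0 j
      have h2 : A = ∅ := by
        rw [← Finset.card_eq_zero]
        omega
      rw [h2] at h1
      exact absurd h1 (notMem_empty _)
    rw [he]
    simp
  | succ m ih =>
    intro A hA I t s φ hφ hφt hIA hI hspread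
    by_cases hex : ∃ i ∈ I, Ref s (t i)
    · obtain ⟨i, hi, hr⟩ := hex
      have he : bad p I t s = ∅ := by
        rw [Finset.eq_empty_iff_forall_notMem]
        intro w hw
        exact (mem_bad.1 hw).2 i hi ((mem_bad.1 hw).1.mono hr)
      rw [he]
      simp
    push Not at hex
    obtain ⟨L, hL⟩ : ∃ L, L = Fintype.card Λ ^ 2 := ⟨_, rfl⟩
    rw [← hL] at hK
    obtain ⟨ω, hω⟩ : ∃ ω : (Fin n → Λ) → ℕ, ω = fun τ => (I.filter (fun i => t i = τ)).card :=
      ⟨_, rfl⟩
    have hω1 : ∀ j ∈ I, ω (t j) * K ^ (m + 1) ≤ I.card := by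
      intro j hj
      rw [hω]
      apply hspread (t j) (Ref.of_comp hφ (hφt j hj)) (hex j hj) _ (filter_subset _ _)
      intro i hi
      rw [(mem_filter.1 hi).2]
      exact Ref.refl' _
    have hKm : K ≤ K ^ (m + 1) := Nat.le_self_pow (by omega) K
    obtain ⟨i0, hi0⟩ := hI
    have hIK : K ≤ I.card := by
      have h1 : 1 ≤ ω (t i0) := by
        rw [hω]
        exact Finset.card_pos.2 ⟨i0, mem_filter.2 ⟨hi0, rfl⟩⟩
      calc K ≤ K ^ (m + 1) := hKm
        _ = 1 * K ^ (m + 1) := (one_mul _).symm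
        _ ≤ ω (t i0) * K ^ (m + 1) := Nat.mul_le_mul_right _ h1
        _ ≤ I.card := hω1 i0 hi0
    obtain ⟨θ, hθ⟩ : ∃ θ, θ = (I.card + K - 1) / K := ⟨_, rfl⟩
    have hdm := Nat.div_add_mod (I.card + K - 1) K
    have hml := Nat.mod_lt (I.card + K - 1) hKpos
    rw [← hθ] at hdm
    have hθ1 : I.card ≤ K * θ := by omega
    have hθ2 : K * θ < 2 * I.card := by omega
    have hθ3 : 1 ≤ θ := by
      rcases Nat.eq_zero_or_pos θ with h | h
      · rw [h] at hθ1
        omega
      · exact h
    have hω2 : ∀ τ, ω τ ≤ θ := by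
      intro τ
      rcases Nat.eq_zero_or_pos (ω τ) with h | h
      · omega
      · have h2 := h
        rw [hω] at h2
        obtain ⟨j, hj⟩ := Finset.card_pos.1 h2
        obtain ⟨hjI, rfl⟩ := mem_filter.1 hj
        have h3 := hω1 j hjI
        have h4 : ω (t j) * K ≤ K * θ := by
          calc ω (t j) * K ≤ ω (t j) * K ^ (m + 1) := Nat.mul_le_mul_left _ hKm
            _ ≤ I.card := h3
            _ ≤ K * θ := hθ1
        rw [mul_comm] at h4
        exact Nat.le_of_mul_le_mul_left h4 hKpos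
    have hsum : ∑ τ, ω τ = I.card := by
      rw [hω]
      exact (Finset.card_eq_sum_card_fiberwise (f := t) (s := I) (t := univ)
        (fun _ _ => mem_coe.2 (mem_univ _))).symm
    have hcond : θ * X ^ (L * k) * (X + Fintype.card Λ ^ 2) ^ n < (∑ τ, ω τ) * X ^ n := by
      rw [hsum, ← hL]
      have h1 : 2 * (θ * X ^ (L * k) * (X + L) ^ n) ≤ K * θ * X ^ n := by
        calc 2 * (θ * X ^ (L * k) * (X + L) ^ n) = θ * (2 * X ^ (L * k) * (X + L) ^ n) := by ring
          _ ≤ θ * (K * X ^ n) := Nat.mul_le_mul_left _ hK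
          _ = K * θ * X ^ n := by ring
      have h2 : K * θ * X ^ n < 2 * I.card * X ^ n := Nat.mul_lt_mul_of_pos_right hθ2 (by positivity)
      have h3 : 2 * I.card * X ^ n = 2 * (I.card * X ^ n) := by ring
      omega
    obtain ⟨S0, f, g, hS0, hfg, hpat0⟩ := hSh Λ X θ hX n (L * k) ω hω2 hcond
    -- one pair of labels
    obtain ⟨⟨a, b⟩, _, hab0⟩ := Finset.exists_le_card_fiber_of_mul_le_card_of_maps_to
      (s := S0) (t := (univ : Finset (Λ × Λ))) (f := fun j => (f j, g j)) (n := k)
      (fun _ _ => mem_univ _) ⟨(0, 0), mem_univ _⟩ (by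
        rw [card_univ, Fintype.card_prod, hS0, hL, sq])
    obtain ⟨S, hSsub, hScard⟩ := Finset.exists_subset_card_eq hab0
    have hS : ∀ j ∈ S, j ∈ S0 ∧ f j = a ∧ g j = b := by
      intro j hj
      obtain ⟨h1, h2⟩ := mem_filter.1 (hSsub hj)
      exact ⟨h1, congrArg Prod.fst h2, congrArg Prod.snd h2⟩
    have hSne : S.Nonempty := by
      rw [← Finset.card_pos]
      omega
    obtain ⟨j0, hj0⟩ := hSne
    have hab : a ≠ b := by
      obtain ⟨h1, h2, h3⟩ := hS j0 hj0
      rw [← h2, ← h3]
      exact hfg j0 h1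
    have hpat1 : ∀ J ⊆ S, ∀ u v : Λ, (∃ J' ⊆ S, ∀ j ∈ S, pat J u v j = pat J' a b j) →
        θ ≤ (sub I t S J u v).card := by
      rintro J hJ u v ⟨J', hJ', hp⟩
      refine (hpat0 J' (fun j hj => (hS j (hJ' hj)).1)).trans ?_
      have e : ∀ P : Finset (Fin n → Λ), ∑ τ ∈ P, ω τ = (I.filter (fun i => t i ∈ P)).card := by
        intro P
        rw [hω, Finset.card_eq_sum_card_fiberwise (f := t) (s := I.filter (fun i => t i ∈ P))
          (t := P) (fun i hi => mem_coe.2 (mem_filter.1 (mem_coe.1 hi)).2)]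
        apply Finset.sum_congr rfl
        intro τ hτ
        apply congrArg Finset.card
        ext i
        simp only [mem_filter]
        constructor
        · rintro ⟨h1, rfl⟩
          exact ⟨⟨h1, hτ⟩, rfl⟩
        · rintro ⟨⟨h1, _⟩, h2⟩
          exact ⟨h1, h2⟩
      rw [e]
      apply Finset.card_le_card
      intro i hi
      obtain ⟨h1, h2⟩ := mem_filter.1 hi
      rw [mem_sub]
      refine ⟨h1, fun j hj => ?_⟩
      obtain ⟨h3, h4, h5⟩ := hS j hj
      rw [(mem_filter.1 h2).2 j h3, h4, h5, hp j hj]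
      rfl
    -- orient the pair
    obtain ⟨u, v, huv, hv, hpat⟩ : ∃ u v : Λ, u ≠ v ∧ v ≠ 0 ∧
        ∀ J ⊆ S, θ ≤ (sub I t S J u v).card := by
      by_cases hb : b = 0
      · refine ⟨b, a, hab.symm, fun h => hab (h.trans hb.symm), ?_⟩
        intro J hJ
        apply hpat1 J hJ b a
        refine ⟨S \ J, sdiff_subset, ?_⟩
        intro j hj
        unfold pat
        by_cases hjJ : j ∈ J
        · simp [hjJ]
        · simp [hjJ, hj]
      · exact ⟨a, b, hab, hb, fun J hJ => hpat1 J hJ a b ⟨J, hJ, fun _ _ => rfl⟩⟩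
    have hsubne : ∀ J ⊆ S, (sub I t S J u v).Nonempty := by
      intro J hJ
      rw [← Finset.card_pos]
      have := hpat J hJ
      omega
    obtain ⟨i1, hi1⟩ := hsubne ∅ (empty_subset _)
    obtain ⟨i2, hi2⟩ := hsubne {j0} (by simpa using hj0)
    obtain ⟨hi1I, hi1p⟩ := mem_sub.1 hi1
    obtain ⟨hi2I, hi2p⟩ := mem_sub.1 hi2
    have hu1 : t i1 j0 = u := by
      rw [hi1p j0 hj0]
      simp [pat]
    have hv1 : t i2 j0 = v := by
      rw [hi2p j0 hj0]
      simp [pat]
    have hφuv : φ u = φ v := by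
      rw [← hu1, ← hv1, hφt i1 hi1I j0, hφt i2 hi2I j0]
    have huA : u ∈ A := hu1 ▸ hIA i1 hi1I j0
    have hvA : v ∈ A := hv1 ▸ hIA i2 hi2I j0
    have hmg0 : mg u v 0 = 0 := by
      unfold mg
      rw [if_neg (fun h => hv h.symm)]
    have hφmg : ∀ c, φ (mg u v c) = φ c := by
      intro c
      unfold mg
      split_ifs with h
      · rw [h, hφuv]
      · rfl
    -- the merged families
    have hstep : ∀ J ∈ S.powerset, (bad p (sub I t S J u v) (fun i j => mg u v (t i j)) s).card
        ≤ (2 ^ k + 1) ^ m * (p ^ (n + 1 - k) * G) := by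
      intro J hJ
      rw [mem_powerset] at hJ
      apply ih (A.erase v) (by rw [Finset.card_erase_of_mem hvA]; omega)
        (sub I t S J u v) (fun i j => mg u v (t i j)) s φ hφ
      · intro i hi j
        rw [hφmg]
        exact hφt i (mem_sub.1 hi).1 j
      · intro i hi j
        rw [Finset.mem_erase]
        unfold mg
        split_ifs with h
        · exact ⟨huv, huA⟩
        · exact ⟨h, hIA i (mem_sub.1 hi).1 j⟩
      · exact hsubne J hJ
      · intro s' hs' hs'' I' hI' hI'r
        have h1 := hspread s' hs' hs'' I' (fun i hi => (mem_sub.1 (hI' hi)).1) (by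
          intro i hi
          exact Ref.trans' (Ref.of_comp hmg0 (fun _ => rfl)) (hI'r i hi))
        have h2 : K * (I'.card * K ^ m) ≤ K * (sub I t S J u v).card := by
          calc K * (I'.card * K ^ m) = I'.card * K ^ (m + 1) := by ring
            _ ≤ I.card := h1
            _ ≤ K * θ := hθ1
            _ ≤ K * (sub I t S J u v).card := Nat.mul_le_mul_left _ (hpat J hJ)
        exact Nat.le_of_mul_le_mul_left h2 hKpos
    refine (step_count p G S (hG S) huv I t s).trans ?_
    obtain ⟨B, hB⟩ : ∃ B, B = p ^ (n + 1 - k) * G := ⟨_, rfl⟩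
    rw [hScard, ← hB]
    have h1 := Finset.sum_le_card_nsmul _ _ _ hstep
    rw [Finset.card_powerset, hScard, smul_eq_mul, ← hB] at h1
    have h2 : B ≤ (2 ^ k + 1) ^ m * B := Nat.le_mul_of_pos_left B (by positivity)
    calc _ ≤ 2 ^ k * ((2 ^ k + 1) ^ m * B) + B := Nat.add_le_add_right h1 _
      _ ≤ 2 ^ k * ((2 ^ k + 1) ^ m * B) + (2 ^ k + 1) ^ m * B := Nat.add_le_add_left h2 _
      _ = (2 ^ k + 1) ^ (m + 1) * B := by ring

/-- P6. -/
theorem claim (hSh : StShatter) : StClaim := by
  classical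
  intro p _ Λ _ _ _ n X K k G hX hk hK hG α m A hA I t s φ hφ hφt hIA hI hsp
  have h := claim_aux hSh p X K k G hX hk hK hG m A hA I t s φ hφ hφt hIA hI (by
    intro s' h1 h2 I' hI' hr
    refine le_trans ?_ (hsp s' h1 h2)
    apply Nat.mul_le_mul_right
    apply Finset.card_le_card
    intro i hi
    exact mem_filter.2 ⟨hI' hi, hr i hi⟩)
  refine le_trans (le_of_eq ?_) h
  unfold bad
  congr

end Pool.Agent.T9h20.SC
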