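import Pool.Agent.T9h20.SC.Inst

/-!
Further statements of the pieces (Prop definitions).
-/

namespace Pool.Agent.T9h20.SC

open Finset

/-- The factor lost in the theorem. -/
def loss (k s f K : ℕ) : ℕ :=
  (2 * f * (k + 1) * ((k + 1) ^ (k + 1) * K ^ (k + 1)) ^ (k + 1)) ^ (k + 1) *
    ((k + 1) ^ 2) ^ k * (k * s + 1)

/-- P9. The parameters. With `n = k * s`, `ℓ = k + 1`: choose `k` with
`c * log₂ (4 k) ≤ (ε / 8) k` (so that `(n.choose s) ^ c ≤ (4 k) ^ (c s) ≤ 2 ^ (ε n / 8)`;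
`(n.choose s) * k ^ (n - s) ≤ (k + 1) ^ n` by the binomial theorem and `(k + 1) ^ k ≤ 4 k ^ k`); then
`X = ℓ ^ 2 * Y` with `Y` large compared with `ℓ ^ 3 / ε`, `r = n / R` with `R` large compared with
`ℓ ^ 5 * log₂ X / ε`, `K = 2 * X ^ (ℓ ^ 2 * r) * 4 ^ (n / Y + 1)` (as `(1 + 1 / Y) ^ Y ≤ 4`),
`K₀` with `ℓ / K₀ ≤ ε / 8`, `p` a prime number with `p ≥ 2 ^ (ℓ + R * (2 * ℓ + 4))`,
`G = 4 * (p ^ 2 * n) ^ (p - 1)` (as `(1 + 1 / n) ^ n ≤ 4`), and `s` large. -/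
def StParamA : Prop := ∀ (ε : ℝ), 0 < ε → ∀ k : ℕ, 2 ≤ k → ∃ K₀ s₀ : ℕ, ∀ s ≥ s₀, 1 ≤ s ∧
  ∀ f : ℕ, 1 ≤ f → f ^ K₀ ≤ 2 ^ (k * s) →
  ∃ p X K r G : ℕ, p.Prime ∧ 1 ≤ X ∧ 1 ≤ K ∧ 1 ≤ r ∧
    2 * X ^ ((k + 1) ^ 2 * r) * (X + (k + 1) ^ 2) ^ (k * s) ≤ K * X ^ (k * s) ∧
    (p ^ 2 * (k * s)) ^ (p - 1) * (p ^ 2 * (k * s) + p ^ 2) ^ (k * s)
      ≤ G * (p ^ 2 * (k * s)) ^ (k * s) ∧
    (∀ m : ℕ, m ≤ 2 ^ (k * s) → (m + 1) * ((f + 1) * (((k + 1) ^ (k * s) + 1) *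
      ((k + 1) ^ (k * s) * ((2 ^ r + 1) ^ (k + 1) * (p ^ (k * s + 1 - r) * G))))) * p ^ (k + 1)
        < p ^ (k * s)) ∧
    (loss k s f K : ℝ) * (2 : ℝ) ^ ((1 - ε) * ((k * s : ℕ) : ℝ)) < 2 ^ (k * s)

/-- P9b. -/
def StParamB : Prop := ∀ (ε : ℝ), 0 < ε → ∀ c : ℕ, ∃ k₀ : ℕ, ∀ k ≥ k₀, ∀ s : ℕ, 1 ≤ s →
  (((k * s) * (k * s).choose s : ℕ) : ℝ) ^ c ≤ (2 : ℝ) ^ (ε * ((k * s : ℕ) : ℝ))

open Classical in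
/-- P10. All partitions belong to the same number of permutations. -/
def StUniform : Prop := ∀ (k s : ℕ), 1 ≤ s → ∀ 𝒬 : Finset (Finset (Finset (Fin (k * s)))),
  (∀ ℱ ∈ 𝒬, IsPartition k s ℱ) →
  (univ.filter (fun π : Equiv.Perm (Fin (k * s)) => part k s π ∈ 𝒬)).card *
    (univ.filter (fun ℱ : Finset (Finset (Fin (k * s))) => IsPartition k s ℱ)).card
    = 𝒬.card * (k * s).factorial

end Pool.Agent.T9h20.SC
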