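import Pool.Agent.T9h20.SC.Claim
import Pool.Agent.T9h20.SC.Spec2
import Pool.Agent.T9h95.SC.P2
import Pool.Agent.T9h95.SC.P7
import Pool.Agent.T9h36.SC.P3
import Pool.Agent.T9h36.SC.P8

/-!
The lower bound with explicit parameters.
-/

namespace Pool.Agent.T9h20.SC

open Finset Pool.Agent.T9h36.SC

set_option linter.unusedSectionVars false

/-- The parts of a labeling. -/
def parts {n k : ℕ} (τ : Fin n → Fin (k + 1)) : Finset (Finset (Fin n)) :=
  ((univ.filter (fun c : Fin (k + 1) => c ≠ 0)).image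
    (fun c => univ.filter (fun i => τ i = c))).filter (fun A => A.Nonempty)

lemma mem_parts {n k : ℕ} {τ : Fin n → Fin (k + 1)} {A : Finset (Fin n)} :
    A ∈ parts τ ↔ A.Nonempty ∧ ∃ c, c ≠ 0 ∧ A = univ.filter (fun i => τ i = c) := by
  unfold parts
  rw [mem_filter, mem_image]
  constructor
  · rintro ⟨⟨c, hc, rfl⟩, h⟩
    exact ⟨h, c, (mem_filter.1 hc).2, rfl⟩
  · rintro ⟨h, c, hc, rfl⟩
    exact ⟨⟨c, mem_filter.2 ⟨mem_univ _, hc⟩, rfl⟩, h⟩

open Classical in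
/-- The base families. -/
noncomputable def baseF (k s : ℕ) (q : SubFam (k * s)) (t : ℝ) :
    Finset (Fin (k * s) → Fin (k + 1)) :=
  univ.filter (fun τ => (∀ i, τ i ≠ 0 → i ∈ q.scope) ∧ (∀ A ∈ parts τ, A.card = s) ∧
    t ≤ q.fn (parts τ))

lemma mem_baseF {k s : ℕ} {q : SubFam (k * s)} {t : ℝ} {τ : Fin (k * s) → Fin (k + 1)} :
    τ ∈ baseF k s q t ↔ (∀ i, τ i ≠ 0 → i ∈ q.scope) ∧ (∀ A ∈ parts τ, A.card = s) ∧
    t ≤ q.fn (parts τ) := by
  classical
  unfold baseF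
  rw [mem_filter]
  exact ⟨fun h => h.2, fun h => ⟨mem_univ _, h⟩⟩

lemma Ok.mono {n k : ℕ} {a b : Fin n → Fin (k + 1)} (h1 : Ok a) (h2 : Ref a b) : Ok b := by
  unfold Ok at h1 ⊢
  refine le_trans (Nat.mul_le_mul_left 2 (card_le_card ?_)) h1
  intro i hi
  rw [mem_filter] at hi ⊢
  exact ⟨mem_univ _, fun h => hi.2 (h2.2 i h)⟩

open Classical in
lemma cross_card (hCross : StCross) (k s : ℕ) (a b : Fin (k * s) → Fin (k + 1)) (h1 : Ok a)
    (h2 : Ok b) (h3 : k * s < 2 * (univ.filter (fun i => a i ≠ 0 ∨ b i ≠ 0)).card) :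
    (univ.filter (fun π : Equiv.Perm (Fin (k * s)) =>
      Pos (cls k s) π a ∧ Pos (cls k s) π b)).card
      ≤ (((k + 1) ^ 2) ^ k * ((k * s + 1) * (k * s).factorial)) / 2 ^ (k * s) := by
  have h4 := hCross (k * s) k (Fin (k + 1) × Fin (k + 1)) (cls k s) (fun i => (a i, b i)) (by
    rintro ⟨u, v⟩
    by_cases hu : u = 0 ∧ v = 0
    · obtain ⟨rfl, rfl⟩ := hu
      have h5 := Finset.card_filter_add_card_filter_not (s := (univ : Finset (Fin (k * s))))
        (fun i => a i ≠ 0 ∨ b i ≠ 0)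
      have h6 : (univ.filter (fun i => (a i, b i) = ((0 : Fin (k + 1)), (0 : Fin (k + 1)))))
          = univ.filter (fun i => ¬ (a i ≠ 0 ∨ b i ≠ 0)) := by
        ext i
        simp [Prod.ext_iff]
      rw [h6]
      rw [card_univ, Fintype.card_fin] at h5
      omega
    · unfold Ok at h1 h2
      by_cases hu0 : u = 0
      · have hv0 : v ≠ 0 := fun h => hu ⟨hu0, h⟩
        refine le_trans (Nat.mul_le_mul_left 2 (card_le_card ?_)) h2
        intro i hi
        rw [mem_filter] at hi ⊢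
        refine ⟨mem_univ _, ?_⟩
        have := congrArg Prod.snd hi.2
        dsimp only at this
        rw [this]
        exact hv0
      · refine le_trans (Nat.mul_le_mul_left 2 (card_le_card ?_)) h1
        intro i hi
        rw [mem_filter] at hi ⊢
        refine ⟨mem_univ _, ?_⟩
        have := congrArg Prod.fst hi.2
        dsimp only at this
        rw [this]
        exact hu0)
  rw [Fintype.card_prod, Fintype.card_fin, ← sq] at h4
  rw [Nat.le_div_iff_mul_le (by positivity)]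
  refine le_trans (Nat.mul_le_mul_right _ (card_le_card ?_)) h4
  intro π hπ
  obtain ⟨_, h5, h6⟩ := mem_filter.1 hπ
  refine mem_filter.2 ⟨mem_univ _, fun i j hij => ?_⟩
  rw [h5 i j hij, h6 i j hij]

lemma base_ok {k s : ℕ} (q : SubFam (k * s)) (t : ℝ) : ∀ τ ∈ baseF k s q t, Ok τ := by
  intro τ hτ
  obtain ⟨h1, _, _⟩ := mem_baseF.1 hτ
  unfold Ok
  refine le_trans (Nat.mul_le_mul_left 2 (card_le_card ?_)) q.half
  intro i hi
  exact h1 i (mem_filter.1 hi).2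

lemma base_anti {k s : ℕ} (q : SubFam (k * s)) (t t' : ℝ) (htt : t ≤ t') :
    baseF k s q t' ⊆ baseF k s q t := by
  intro τ hτ
  obtain ⟨h1, h2, h3⟩ := mem_baseF.1 hτ
  exact mem_baseF.2 ⟨h1, h2, htt.trans h3⟩

lemma base_pos {k s : ℕ} (hs : 1 ≤ s) (q : SubFam (k * s))
    (π : Equiv.Perm (Fin (k * s))) (t : ℝ) (ht : t ≤ SubFam.eval (part k s π) q) :
    ∃ τ ∈ baseF k s q t, Pos (cls k s) π τ := by
  classical
  obtain ⟨blk, hblk⟩ : ∃ blk : Fin k → Finset (Fin (k * s)),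
    blk = fun c => univ.filter (fun i => cls k s (π i) = c) := ⟨_, rfl⟩
  obtain ⟨τ, hτ⟩ : ∃ τ : Fin (k * s) → Fin (k + 1), τ = fun i =>
    if blk (cls k s (π i)) ⊆ q.scope then (cls k s (π i)).succ else 0 := ⟨_, rfl⟩
  have hmem : ∀ i c, i ∈ blk c ↔ cls k s (π i) = c := by
    intro i c
    rw [hblk]
    simp
  have hclass : ∀ c : Fin k, blk c ⊆ q.scope → univ.filter (fun i => τ i = c.succ) = blk c := by
    intro c hc
    ext i
    rw [mem_filter, hmem]
    constructor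
    · rintro ⟨_, h⟩
      rw [hτ] at h
      dsimp only at h
      split_ifs at h with h2
      · exact Fin.succ_injective _ h
      · exact absurd h.symm (Fin.succ_ne_zero c)
    · intro h
      refine ⟨mem_univ _, ?_⟩
      rw [hτ]
      dsimp only
      rw [h, if_pos hc]
  have hclass2 : ∀ c : Fin k, ¬ blk c ⊆ q.scope → univ.filter (fun i => τ i = c.succ) = ∅ := by
    intro c hc
    rw [Finset.eq_empty_iff_forall_notMem]
    intro i hi
    have h := (mem_filter.1 hi).2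
    rw [hτ] at h
    dsimp only at h
    split_ifs at h with h2
    · rw [Fin.succ_injective _ h] at h2
      exact hc h2
    · exact absurd h.symm (Fin.succ_ne_zero c)
  refine ⟨τ, mem_baseF.2 ⟨?_, ?_, ?_⟩, ?_⟩
  · intro i hi
    rw [hτ] at hi
    dsimp only at hi
    split_ifs at hi with h
    · exact h ((hmem i _).2 rfl)
    · exact absurd rfl hi
  · intro A hA
    obtain ⟨hne, c, hc, rfl⟩ := mem_parts.1 hA
    obtain ⟨d, rfl⟩ := Fin.exists_succ_eq.2 hc
    by_cases hd : blk d ⊆ q.scope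
    · rw [hclass d hd, hblk]
      exact cls_card k s π d
    · rw [hclass2 d hd] at hne
      exact absurd hne (by simp)
  · refine ht.trans ?_
    unfold SubFam.eval
    apply q.mono
    intro A hA
    obtain ⟨h1, h2⟩ := mem_filter.1 hA
    unfold part at h1
    obtain ⟨c, _, rfl⟩ := mem_image.1 h1
    have h3 : blk c ⊆ q.scope := by
      rw [hblk]
      exact h2
    refine mem_parts.2 ⟨?_, c.succ, Fin.succ_ne_zero c, ?_⟩
    · rw [← card_pos, cls_card]
      omega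
    · rw [hclass c h3, hblk]
  · intro i j hij
    rw [hτ]
    dsimp only
    rw [hij]

lemma base_neg {k s p : ℕ} (q : SubFam (k * s))
    (w : Fin (k * s) → ZMod p) (t : ℝ) (hex : ∃ τ ∈ baseF k s q t, Ev w τ) :
    t ≤ SubFam.eval (zfam s w) q := by
  obtain ⟨τ, hτ, hE⟩ := hex
  obtain ⟨h1, h2, h3⟩ := mem_baseF.1 hτ
  refine h3.trans ?_
  unfold SubFam.eval
  apply q.mono
  intro A hA
  have hAs := h2 A hA
  obtain ⟨_, c, hc, rfl⟩ := mem_parts.1 hA
  refine mem_filter.2 ⟨?_, ?_⟩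
  · unfold zfam
    exact mem_filter.2 ⟨mem_univ _, hAs, hE c hc⟩
  · intro i hi
    apply h1
    rw [(mem_filter.1 hi).2]
    exact hc

open Classical in
lemma pluck_inst (k s : ℕ) (p : ℕ) [Fact p.Prime] (X K r G : ℕ) (hX : 1 ≤ X) (hK1 : 1 ≤ K)
    (hr : 1 ≤ r) (hn1 : 1 ≤ k * s)
    (hK : 2 * X ^ ((k + 1) ^ 2 * r) * (X + (k + 1) ^ 2) ^ (k * s) ≤ K * X ^ (k * s))
    (hG : (p ^ 2 * (k * s)) ^ (p - 1) * (p ^ 2 * (k * s) + p ^ 2) ^ (k * s)
      ≤ G * (p ^ 2 * (k * s)) ^ (k * s))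
    (T : Finset (Fin (k * s) → Fin (k + 1))) (τ₀ : Fin (k * s) → Fin (k + 1)) (q : ℕ)
    (hT : ∀ t ∈ T, Ref t τ₀ ∧ rk t = q)
    (hcard : ((k + 1) ^ (k + 1) * K ^ (k + 1)) ^ (k + 1) < T.card) :
    ∃ s' : Fin (k * s) → Fin (k + 1), ∃ L ⊆ T, L.Nonempty ∧ Ref s' τ₀ ∧
      (∀ t ∈ L, Ref t s' ∧ ¬ Ref s' t) ∧
      (univ.filter (fun w : Fin (k * s) → ZMod p => Ev w s' ∧ ∀ t ∈ L, ¬ Ev w t)).card
        ≤ (2 ^ r + 1) ^ (k + 1) * (p ^ (k * s + 1 - r) * G) := by
  have hp : p.Prime := Fact.out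
  have hGG : ∀ (S : Finset (Fin (k * s))) (Y : Finset (Fin (k * s) → ZMod p)),
      (∀ w ∈ Y, ∀ w' ∈ Y, ∀ j, j ∉ S → w j = w' j) →
      (∀ J ⊆ S, ∃ y, ∀ w ∈ Y, ∑ j ∈ J, w j ≠ y) → Y.card ≤ G := by
    intro S Y h1 h2
    have hpos : 1 ≤ p ^ 2 * (k * s) := Nat.mul_pos (pow_pos hp.pos 2) hn1
    have h3 := stFiber p (p ^ 2 * (k * s)) hpos (k * s) S Y h1 h2
    exact Nat.le_of_mul_le_mul_right (h3.trans hG) (pow_pos hpos _)
  have hcl := claim stShatter p (Fin (k + 1)) (k * s) X K r G hX hr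
    (by rw [Fintype.card_fin]; exact hK) hGG (Fin (k * s) → Fin (k + 1)) (k + 1) univ
    (by rw [card_univ, Fintype.card_fin])
  have hpl := stPluck p (Fin (k + 1)) (k * s) K ((k + 1) ^ (k + 1) * K ^ (k + 1))
    ((2 ^ r + 1) ^ (k + 1) * (p ^ (k * s + 1 - r) * G)) hK1 (by rw [Fintype.card_fin]) (by
    intro I s' φ hφ hφi hI hsp
    rw [Fintype.card_fin] at hsp
    have h := hcl I (fun i => i) s' φ hφ hφi (fun _ _ _ => mem_univ _) hI hsp
    refine le_trans (le_of_eq ?_) h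
    congr)
  rw [Fintype.card_fin] at hpl
  exact hpl T τ₀ q hT hcard

end Pool.Agent.T9h20.SC
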