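import Pool.Agent.T9h20.SC.Core

/-!
The lower bound with explicit parameters.
-/

namespace Pool.Agent.T9h20.SC

open Finset Pool.Agent.T9h36.SC

open Classical in
/-- The application of the approximation method. -/
lemma approx_inst (hCross : StCross) (hApprox : StApprox) (k s : ℕ) (hk : 2 ≤ k) (hs : 1 ≤ s)
    (p : ℕ) [Fact p.Prime] (X K r G f : ℕ) (hX : 1 ≤ X) (hK1 : 1 ≤ K) (hr : 1 ≤ r) (hf : 1 ≤ f)
    (hK : 2 * X ^ ((k + 1) ^ 2 * r) * (X + (k + 1) ^ 2) ^ (k * s) ≤ K * X ^ (k * s))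
    (hG : (p ^ 2 * (k * s)) ^ (p - 1) * (p ^ 2 * (k * s) + p ^ 2) ^ (k * s)
      ≤ G * (p ^ 2 * (k * s)) ^ (k * s))
    (C : FCircuit (SubFam (k * s))) (hC : C.FanInLe f) :
    ∃ L : Finset (Equiv.Perm (Fin (k * s))),
      L.card ≤ C.size * ((2 * f * (k + 1) * ((k + 1) ^ (k + 1) * K ^ (k + 1)) ^ (k + 1)) ^ (k + 1) *
        ((((k + 1) ^ 2) ^ k * ((k * s + 1) * (k * s).factorial)) / 2 ^ (k * s))) ∧
      ∀ π, π ∉ L → ∃ τ : Fin (k * s) → Fin (k + 1), Ok τ ∧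
        ∀ Z : Finset (Fin (k * s) → ZMod p),
          (∀ w ∈ Z, Ev w τ ∧ value C (zfam s w) < value C (part k s π)) →
          Z.card ≤ (C.size + 1) * ((f + 1) * (((k + 1) ^ (k * s) + 1) *
            ((k + 1) ^ (k * s) * ((2 ^ r + 1) ^ (k + 1) * (p ^ (k * s + 1 - r) * G))))) := by
  have hn1 : 1 ≤ k * s := Nat.mul_pos (by omega) hs
  have hD1 : 1 ≤ ((k + 1) ^ (k + 1) * K ^ (k + 1)) ^ (k + 1) := by
    apply Nat.one_le_pow
    exact Nat.mul_pos (by positivity) (pow_pos hK1 _)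
  have h1 : ∀ a : Fin (k * s) → Fin (k + 1), Ref a a := fun a => Ref.refl' a
  have h2 : ∀ a b c : Fin (k * s) → Fin (k + 1), Ref a b → Ref b c → Ref a c :=
    fun a b c h1 h2 => h1.trans' h2
  have h3 : ∀ (w : Fin (k * s) → ZMod p) (a b : Fin (k * s) → Fin (k + 1)), Ev w a → Ref a b →
      Ev w b := fun w a b h1 h2 => h1.mono h2
  have h4 : ∀ (x : Equiv.Perm (Fin (k * s))) (a b : Fin (k * s) → Fin (k + 1)),
      Pos (cls k s) x a → Ref a b → Pos (cls k s) x b := fun x a b h1 h2 i j hij =>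
    h2.1 i j (h1 i j hij)
  have h5 : Ok (fun _ : Fin (k * s) => (0 : Fin (k + 1))) := by simp [Ok]
  have h6 : ∀ x : Equiv.Perm (Fin (k * s)),
      Pos (cls k s) x (fun _ : Fin (k * s) => (0 : Fin (k + 1))) := fun x i j _ => rfl
  have h7 : ∀ w : Fin (k * s) → ZMod p, Ev w (fun _ : Fin (k * s) => (0 : Fin (k + 1))) := by
    intro w c hc
    apply sum_eq_zero
    intro i hi
    exact absurd (mem_filter.1 hi).2.symm hc
  have h8 : ∀ t : Fin (k * s) → Fin (k + 1), Ref t (fun _ : Fin (k * s) => (0 : Fin (k + 1))) :=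
    fun t => ⟨fun _ _ _ => rfl, fun _ _ => rfl⟩
  have h9 : ∀ t : Fin (k * s) → Fin (k + 1), rk t ≤ k := by
    intro t
    have := rk_lt_card t
    rw [Fintype.card_fin] at this
    omega
  have h10 : ∀ a b : Fin (k * s) → Fin (k + 1), Ref a b → ¬ Ref b a → rk b < rk a := by
    intro a b h1 h2
    by_contra h3
    push Not at h3
    exact h2 ((stRank (Fin (k + 1)) (k * s) a b h1).2 h3)
  have h11 : ∀ a b : Fin (k * s) → Fin (k + 1), Ok a → Ref a b → Ok b :=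
    fun a b h1 h2 => Ok.mono h1 h2
  have h12 : ∀ (x : Equiv.Perm (Fin (k * s))) (a b : Fin (k * s) → Fin (k + 1)), Ok a → Ok b →
      Pos (cls k s) x a → Pos (cls k s) x b →
      ¬ (k * s < 2 * (univ.filter (fun i => a i ≠ 0 ∨ b i ≠ 0)).card) →
      ∃ c, Ok c ∧ Pos (cls k s) x c ∧ Ref c a ∧ Ref c b := by
    intro x a b _ _ h3 h4 h5
    push Not at h5
    exact stJoin (k * s) k (cls k s) x a b h3 h4 h5
  have H := hApprox (Fin (k * s) → Fin (k + 1)) (Equiv.Perm (Fin (k * s)))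
    (Fin (k * s) → ZMod p) (SubFam (k * s)) Ok Ref rk (Pos (cls k s)) Ev
    (fun a b => k * s < 2 * (univ.filter (fun i => a i ≠ 0 ∨ b i ≠ 0)).card) (fun _ => 0)
    k (((k + 1) ^ (k + 1) * K ^ (k + 1)) ^ (k + 1))
    ((((k + 1) ^ 2) ^ k * ((k * s + 1) * (k * s).factorial)) / 2 ^ (k * s))
    ((2 ^ r + 1) ^ (k + 1) * (p ^ (k * s + 1 - r) * G)) f hf hD1 h1 h2 h3 h4 h5 h6 h7 h8 h9 h10
    h11 h12
  have H1 := H (fun a b g1 g2 g3 => cross_card hCross k s a b g1 g2 g3)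
  have H2 := H1 (by
    intro S τ q g1 g2
    obtain ⟨s', L, e1, e2, e3, e4, e5⟩ := pluck_inst k s p X K r G hX hK1 hr hn1 hK hG S τ q
        (fun t ht => (g1 t ht).2) g2
    refine ⟨s', L, e1, e2, e3, e4, ?_⟩
    refine le_trans (le_of_eq ?_) e5
    congr)
  obtain ⟨L, hL, hLx⟩ := H2 C hC (fun π => SubFam.eval (part k s π))
    (fun w => SubFam.eval (zfam s w))
    (baseF k s) base_ok (fun A t t' htt => base_anti A t t' htt)
    (fun A π t ht => base_pos hs A π t ht) (fun A w t hex => base_neg A w t hex)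
  refine ⟨L, hL, ?_⟩
  intro π hπ
  obtain ⟨τ, g1, _, g3⟩ := hLx π hπ
  refine ⟨τ, g1, ?_⟩
  intro Z hZ
  have e : Fintype.card (Fin (k * s) → Fin (k + 1)) = (k + 1) ^ (k * s) := by
    rw [Fintype.card_fun, Fintype.card_fin, Fintype.card_fin]
  rw [e] at g3
  refine le_trans (card_le_card ?_) g3
  intro w hw
  exact mem_filter.2 ⟨mem_univ _, hZ w hw⟩

/-- **Core theorem.** -/
theorem core (hCross : StCross) (hApprox : StApprox) (k s : ℕ) (hk : 2 ≤ k) (hs : 1 ≤ s)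
    (p : ℕ) [Fact p.Prime] (X K r G f : ℕ) (hX : 1 ≤ X) (hK1 : 1 ≤ K) (hr : 1 ≤ r) (hf : 1 ≤ f)
    (hK : 2 * X ^ ((k + 1) ^ 2 * r) * (X + (k + 1) ^ 2) ^ (k * s) ≤ K * X ^ (k * s))
    (hG : (p ^ 2 * (k * s)) ^ (p - 1) * (p ^ 2 * (k * s) + p ^ 2) ^ (k * s)
      ≤ G * (p ^ 2 * (k * s)) ^ (k * s))
    (C : FCircuit (SubFam (k * s))) (hC : C.FanInLe f)
    (herr : (C.size + 1) * ((f + 1) * (((k + 1) ^ (k * s) + 1) *
      ((k + 1) ^ (k * s) * ((2 ^ r + 1) ^ (k + 1) * (p ^ (k * s + 1 - r) * G))))) * p ^ (k + 1)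
        < p ^ (k * s))
    (𝒳 : Finset (Equiv.Perm (Fin (k * s))))
    (hsep : ∀ π ∈ 𝒳, ∀ w : Fin (k * s) → ZMod p, ∑ i, w i = 1 →
      value C (zfam s w) < value C (part k s π)) :
    𝒳.card * 2 ^ (k * s) ≤ C.size * (loss k s f K * (k * s).factorial) := by
  classical
  have hn1 : 1 ≤ k * s := Nat.mul_pos (by omega) hs
  obtain ⟨L, hL, hLx⟩ := approx_inst hCross hApprox k s hk hs p X K r G f hX hK1 hr hf hK hG C hC
  -- all members of 𝒳 are lost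
  have hsub : 𝒳 ⊆ L := by
    intro π hπ
    by_contra hπL
    obtain ⟨τ, h1, h3⟩ := hLx π hπL
    have hi0 : ∃ i₀, τ i₀ = 0 := by
      by_contra hne
      push Not at hne
      unfold Ok at h1
      rw [filter_true_of_mem (fun i _ => hne i), card_univ, Fintype.card_fin] at h1
      omega
    obtain ⟨i₀, hi₀⟩ := hi0
    obtain ⟨Z, hZ1, hZ2⟩ := stNeg p (Fin (k + 1)) (k * s) τ i₀ hi₀
    have h4 := h3 Z (fun w hw => ⟨(hZ1 w hw).1, hsep π hπ w (hZ1 w hw).2⟩)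
    rw [Fintype.card_fin] at hZ2
    have h8 := Nat.mul_le_mul_left (p ^ (k + 1)) h4
    have h9 := lt_of_le_of_lt (hZ2.trans (h8.trans (le_of_eq (mul_comm _ _)))) herr
    exact lt_irrefl _ h9
  have h1 := (card_le_card hsub).trans hL
  obtain ⟨ρ, hρ⟩ : ∃ ρ, ρ = (((k + 1) ^ 2) ^ k * ((k * s + 1) * (k * s).factorial)) / 2 ^ (k * s) :=
    ⟨_, rfl⟩
  rw [← hρ] at h1
  have h2 : ρ * 2 ^ (k * s) ≤ ((k + 1) ^ 2) ^ k * ((k * s + 1) * (k * s).factorial) := by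
    rw [hρ]
    exact Nat.div_mul_le_self _ _
  obtain ⟨Q, hQ⟩ : ∃ Q, Q = (2 * f * (k + 1) * ((k + 1) ^ (k + 1) * K ^ (k + 1)) ^ (k + 1)) ^ (k + 1) :=
    ⟨_, rfl⟩
  rw [← hQ] at h1
  calc 𝒳.card * 2 ^ (k * s) ≤ C.size * (Q * ρ) * 2 ^ (k * s) := Nat.mul_le_mul_right _ h1
    _ = C.size * (Q * (ρ * 2 ^ (k * s))) := by ring
    _ ≤ C.size * (Q * (((k + 1) ^ 2) ^ k * ((k * s + 1) * (k * s).factorial))) :=
        Nat.mul_le_mul_left _ (Nat.mul_le_mul_left _ h2)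
    _ = C.size * (loss k s f K * (k * s).factorial) := by
        unfold loss
        rw [← hQ]
        ring

end Pool.Agent.T9h20.SC
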