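import Mathlib
import Pool.Agent.T9h20.W.Defs

/-!
Partial partitions (labelings), the events that all their parts have sum zero, and refinement.
-/

namespace Pool.Agent.T9h20.SC

open Finset

variable {n : ℕ} {Λ : Type}

/-- The labeling `τ` refines the labeling `s`; the label `0` marks the elements which belong to no
part. -/
def Ref [Zero Λ] (τ s : Fin n → Λ) : Prop :=
  (∀ i j, τ i = τ j → s i = s j) ∧ ∀ i, τ i = 0 → s i = 0

/-- All parts of the partial partition `τ` have `w`-sum zero. -/
def Ev [Zero Λ] [DecidableEq Λ] {p : ℕ} (w : Fin n → ZMod p) (τ : Fin n → Λ) : Prop :=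
  ∀ c, c ≠ 0 → ∑ i ∈ univ.filter (fun i => τ i = c), w i = 0

/-- The number of parts of a partial partition. -/
def rk [Zero Λ] [DecidableEq Λ] (τ : Fin n → Λ) : ℕ := ((univ.image τ).erase 0).card

/-- The partial partition `τ` covers at most half of the elements. -/
def Ok [Zero Λ] [DecidableEq Λ] (τ : Fin n → Λ) : Prop :=
  2 * (univ.filter (fun i => τ i ≠ 0)).card ≤ n

/-- The partition into the classes of `x ∘ π` refines the partial partition `τ`. -/
def Pos {k : ℕ} (x : Fin n → Fin k) (π : Equiv.Perm (Fin n)) (τ : Fin n → Λ) : Prop :=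
  ∀ i j, x (π i) = x (π j) → τ i = τ j

end Pool.Agent.T9h20.SC
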