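import Mathlib
import Pool.Agent.T9h20.W.Defs

/-!
Set Cover and monotone circuits which read a family of sets.
-/

namespace Pool.Agent.T9h20.SC

variable {n : ℕ}

/-- The family `ℱ` of subsets of `Fin n` contains a cover of `Fin n` by at most `k` sets: the
instance `(Fin n, ℱ, k)` of Set Cover is a yes-instance. -/
def HasCover (k : ℕ) (ℱ : Finset (Finset (Fin n))) : Prop :=
  ∃ 𝒢 ⊆ ℱ, 𝒢.card ≤ k ∧ ∀ i, ∃ A ∈ 𝒢, i ∈ A

/-- The family `ℱ` is a partition of `Fin n` into `k` sets with `s` elements. -/
def IsPartition (k s : ℕ) (ℱ : Finset (Finset (Fin n))) : Prop :=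
  ℱ.card = k ∧ (∀ A ∈ ℱ, A.card = s) ∧ ∀ i, ∃! A, A ∈ ℱ ∧ i ∈ A

/-- A nondecreasing real function `fn` of the subfamily of all sets contained in the set `scope`,
which has at most `n / 2` elements. -/
structure SubFam (n : ℕ) where
  /-- the scope -/
  scope : Finset (Fin n)
  /-- the scope has at most `n / 2` elements -/
  half : 2 * scope.card ≤ n
  /-- the function -/
  fn : Finset (Finset (Fin n)) → ℝ
  /-- the function is nondecreasing with respect to inclusion of families -/
  mono : ∀ ℱ 𝒢 : Finset (Finset (Fin n)), ℱ ⊆ 𝒢 → fn ℱ ≤ fn 𝒢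

/-- The value on the family `ℱ` of a function of the subfamily of the sets contained in a scope. -/
def SubFam.eval (ℱ : Finset (Finset (Fin n))) (q : SubFam n) : ℝ :=
  q.fn (ℱ.filter (fun A => A ⊆ q.scope))

/-- The value of the circuit on the family `ℱ`. -/
noncomputable def value (C : FCircuit (SubFam n)) (ℱ : Finset (Finset (Fin n))) : ℝ :=
  C.eval (SubFam.eval ℱ)

end Pool.Agent.T9h20.SC
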