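import Pool.Agent.T9h20.SC.Basic
import Pool.Agent.T9h20.SC.FDefs

/-!
The yes-instances (partitions) and the no-instances (sets of sum zero).
-/

namespace Pool.Agent.T9h20.SC

open Finset

/-- The standard class function. -/
def cls (k s : ℕ) (i : Fin (k * s)) : Fin k := (finProdFinEquiv.symm i).1

/-- The partition belonging to a permutation. -/
def part (k s : ℕ) (π : Equiv.Perm (Fin (k * s))) : Finset (Finset (Fin (k * s))) :=
  univ.image (fun c : Fin k => univ.filter (fun i => cls k s (π i) = c))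

/-- The sets with `s` elements and `w`-sum zero. -/
def zfam {n : ℕ} (s : ℕ) {p : ℕ} (w : Fin n → ZMod p) : Finset (Finset (Fin n)) :=
  univ.filter (fun A => A.card = s ∧ ∑ i ∈ A, w i = 0)

lemma cls_card (k s : ℕ) (π : Equiv.Perm (Fin (k * s))) (c : Fin k) :
    (univ.filter (fun i => cls k s (π i) = c)).card = s := by
  have hinj : Function.Injective (fun j : Fin s => π.symm (finProdFinEquiv (c, j))) := by
    intro a b hab
    have h1 := π.symm.injective hab
    have h2 := finProdFinEquiv.injective h1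
    exact congrArg Prod.snd h2
  have h : (univ.filter (fun i => cls k s (π i) = c))
      = (univ : Finset (Fin s)).image (fun j : Fin s => π.symm (finProdFinEquiv (c, j))) := by
    ext i
    rw [mem_filter, mem_image]
    constructor
    · rintro ⟨_, hi⟩
      refine ⟨(finProdFinEquiv.symm (π i)).2, mem_univ _, ?_⟩
      rw [Equiv.symm_apply_eq, ← hi]
      unfold cls
      rw [Prod.mk.eta, Equiv.apply_symm_apply]
    · rintro ⟨j, _, rfl⟩
      refine ⟨mem_univ _, ?_⟩
      unfold cls
      rw [Equiv.apply_symm_apply, Equiv.symm_apply_apply]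
  rw [h, card_image_of_injective _ hinj, card_univ, Fintype.card_fin]

lemma part_isPartition (k s : ℕ) (hs : 1 ≤ s) (π : Equiv.Perm (Fin (k * s))) :
    IsPartition k s (part k s π) := by
  have hinj : Function.Injective
      (fun c : Fin k => (univ.filter (fun i => cls k s (π i) = c) : Finset (Fin (k * s)))) := by
    intro c d hcd
    have h1 : (univ.filter (fun i => cls k s (π i) = c)).Nonempty := by
      rw [← card_pos, cls_card]
      omega
    obtain ⟨i, hi⟩ := h1
    have h2 := hi
    dsimp only at hcd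
    rw [hcd] at h2
    exact (mem_filter.1 hi).2.symm.trans (mem_filter.1 h2).2
  refine ⟨?_, ?_, ?_⟩
  · unfold part
    rw [card_image_of_injective _ hinj, card_univ, Fintype.card_fin]
  · intro A hA
    obtain ⟨c, _, rfl⟩ := mem_image.1 hA
    exact cls_card k s π c
  · intro i
    refine ⟨univ.filter (fun j => cls k s (π j) = cls k s (π i)), ⟨?_, ?_⟩, ?_⟩
    · exact mem_image.2 ⟨_, mem_univ _, rfl⟩
    · simp
    · rintro A ⟨hA, hi⟩
      obtain ⟨c, _, rfl⟩ := mem_image.1 hA
      rw [(mem_filter.1 hi).2]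

/-- A family of sets of sum zero has no cover by `k` sets if the sum of `w` is not zero. -/
lemma zfam_no_cover (k s : ℕ) {p : ℕ} (w : Fin (k * s) → ZMod p) (hw : ∑ i, w i ≠ 0) :
    ¬ HasCover k (zfam s w) := by
  classical
  rintro ⟨𝒢, h𝒢, hcard, hcov⟩
  apply hw
  have hA : ∀ A ∈ 𝒢, A.card = s ∧ ∑ i ∈ A, w i = 0 := fun A hA => (mem_filter.1 (h𝒢 hA)).2
  have hU : 𝒢.biUnion id = univ := by
    ext i
    simp only [mem_biUnion, id, mem_univ, iff_true]
    exact hcov i
  have hsum : ∑ A ∈ 𝒢, A.card = 𝒢.card * s := by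
    rw [Finset.sum_congr rfl (fun A h => (hA A h).1), sum_const, smul_eq_mul]
  have h1 : (𝒢.biUnion id).card = k * s := by
    rw [hU, card_univ, Fintype.card_fin]
  have h2 : ∑ A ∈ 𝒢, A.card ≤ (𝒢.biUnion id).card := by
    rw [hsum, h1]
    exact Nat.mul_le_mul_right _ hcard
  -- the union is disjoint
  have hcount : ∀ i : Fin (k * s), 1 ≤ (𝒢.filter (fun A => i ∈ A)).card := by
    intro i
    obtain ⟨A, h3, h4⟩ := hcov i
    exact card_pos.2 ⟨A, mem_filter.2 ⟨h3, h4⟩⟩
  have hdc : ∑ i : Fin (k * s), (𝒢.filter (fun A => i ∈ A)).card = ∑ A ∈ 𝒢, A.card := by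
    simp only [card_filter]
    rw [sum_comm]
    apply sum_congr rfl
    intro A _
    simp
  have hone : ∀ i : Fin (k * s), (𝒢.filter (fun A => i ∈ A)).card = 1 := by
    have h5 : ∑ i : Fin (k * s), (𝒢.filter (fun A => i ∈ A)).card ≤ ∑ i : Fin (k * s), 1 := by
      rw [hdc]
      simpa [h1] using h2
    intro i
    by_contra hne
    have h6 : ∑ i : Fin (k * s), 1 < ∑ i : Fin (k * s), (𝒢.filter (fun A => i ∈ A)).card :=
      sum_lt_sum (fun j _ => hcount j) ⟨i, mem_univ _, lt_of_le_of_ne (hcount i) (Ne.symm hne)⟩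
    omega
  calc ∑ i, w i = ∑ i, ((𝒢.filter (fun A => i ∈ A)).card : ZMod p) * w i := by
        apply sum_congr rfl
        intro i _
        rw [hone i]
        simp
    _ = ∑ i, ∑ A ∈ 𝒢, (if i ∈ A then w i else 0) := by
        apply sum_congr rfl
        intro i _
        rw [← sum_filter, sum_const, nsmul_eq_mul]
    _ = ∑ A ∈ 𝒢, ∑ i, (if i ∈ A then w i else 0) := sum_comm
    _ = ∑ A ∈ 𝒢, ∑ i ∈ A, w i := by
        apply sum_congr rfl
        intro A _
        rw [← sum_filter]
        simp
    _ = 0 := sum_eq_zero (fun A h => (hA A h).2)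

end Pool.Agent.T9h20.SC
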