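import Pool.Agent.T9h20.SC.Core2

/-!
The Set Cover conjecture for monotone circuits, given the parameters.
-/

namespace Pool.Agent.T9h20.SC

open Finset

theorem main (hCross : StCross) (hApprox : StApprox) (hA : StParamA) (hB : StParamB)
    (hU : StUniform) (ε : ℝ) (hε : 0 < ε) (c : ℕ) :
    ∃ k₀ : ℕ, ∀ k ≥ k₀, ∃ K s₀ : ℕ, ∀ s ≥ s₀, ∀ f ≥ 1, f ^ K ≤ 2 ^ (k * s) →
    ∀ C : FCircuit (SubFam (k * s)), C.FanInLe f → ∀ 𝒬 : Finset (Finset (Finset (Fin (k * s)))),
    (∀ ℱ ∈ 𝒬, IsPartition k s ℱ ∧ ∀ 𝒢, (∀ A ∈ 𝒢, A.card = s) → ¬ HasCover k 𝒢 →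
      value C 𝒢 < value C ℱ) →
    (𝒬.card : ℝ) / Nat.card {ℱ : Finset (Finset (Fin (k * s))) // IsPartition k s ℱ} *
      ((2 : ℝ) ^ ((1 - ε) * ((k * s : ℕ) : ℝ)) * (((k * s) * (k * s).choose s : ℕ) : ℝ) ^ c)
      ≤ C.size := by
  classical
  obtain ⟨k₀, hk₀⟩ := hB (ε / 2) (by linarith) c
  refine ⟨max 2 k₀, ?_⟩
  intro k hk
  have hk2 : 2 ≤ k := (le_max_left _ _).trans hk
  obtain ⟨K₀, s₀, hs₀⟩ := hA (ε / 2) (by linarith) k hk2
  refine ⟨K₀, s₀, ?_⟩
  intro s hs f hf hfK C hC 𝒬 h𝒬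
  obtain ⟨hs1, hpar⟩ := hs₀ s hs
  have hBk := hk₀ k ((le_max_right _ _).trans hk) s hs1
  obtain ⟨n, hn⟩ : ∃ n : ℝ, n = ((k * s : ℕ) : ℝ) := ⟨_, rfl⟩
  rw [← hn] at hBk ⊢
  have hn0 : 0 ≤ n := by rw [hn]; positivity
  obtain ⟨Nc, hNc⟩ : ∃ Nc : ℝ, Nc = (((k * s) * (k * s).choose s : ℕ) : ℝ) ^ c := ⟨_, rfl⟩
  rw [← hNc] at hBk ⊢
  -- the total number of partitions
  obtain ⟨All, hAll⟩ : ∃ All, All = (univ.filter
    (fun ℱ : Finset (Finset (Fin (k * s))) => IsPartition k s ℱ)) := ⟨_, rfl⟩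
  have hcard : Nat.card {ℱ : Finset (Finset (Fin (k * s))) // IsPartition k s ℱ} = All.card := by
    rw [Nat.card_eq_fintype_card, Fintype.card_subtype, hAll]
  rw [hcard]
  have hAllpos : 0 < All.card := by
    rw [Finset.card_pos, hAll]
    exact ⟨part k s 1, mem_filter.2 ⟨mem_univ _, part_isPartition k s hs1 1⟩⟩
  have hAllR : (0 : ℝ) < All.card := by exact_mod_cast hAllpos
  have h𝒬All : 𝒬 ⊆ All := by
    intro ℱ hℱ
    rw [hAll]
    exact mem_filter.2 ⟨mem_univ _, (h𝒬 ℱ hℱ).1⟩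
  have h𝒬le : (𝒬.card : ℝ) ≤ All.card := by exact_mod_cast card_le_card h𝒬All
  have hfrac : (2 : ℝ) ^ ((1 - ε) * n) * Nc ≤ (2 : ℝ) ^ ((1 - ε / 2) * n) := by
    calc (2 : ℝ) ^ ((1 - ε) * n) * Nc ≤ (2 : ℝ) ^ ((1 - ε) * n) * (2 : ℝ) ^ (ε / 2 * n) :=
          mul_le_mul_of_nonneg_left hBk (by positivity)
      _ = (2 : ℝ) ^ ((1 - ε / 2) * n) := by
          rw [← Real.rpow_add (by norm_num)]
          congr 1
          ring
  have hgoal : (𝒬.card : ℝ) * (2 : ℝ) ^ ((1 - ε / 2) * n) ≤ C.size * All.card := by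
    by_cases hsize : C.size ≤ 2 ^ (k * s)
    · obtain ⟨p, X, K, r, G, hp, hX, hK1, hr, hK, hG, herr, hloss⟩ := hpar f hf hfK
      haveI : Fact p.Prime := ⟨hp⟩
      have hcore := core hCross hApprox k s hk2 hs1 p X K r G f hX hK1 hr hf hK hG C hC
        (herr C.size hsize) (univ.filter (fun π => part k s π ∈ 𝒬)) (by
          intro π hπ w hw
          apply (h𝒬 _ (mem_filter.1 hπ).2).2
          · intro A hA
            exact (mem_filter.1 hA).2.1
          · apply zfam_no_cover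
            rw [hw]
            exact one_ne_zero)
      have hunif := hU k s hs1 𝒬 (fun ℱ hℱ => (h𝒬 ℱ hℱ).1)
      rw [← hAll] at hunif
      have hfac : 0 < (k * s).factorial := Nat.factorial_pos _
      have h1 : 𝒬.card * 2 ^ (k * s) ≤ C.size * loss k s f K * All.card := by
        apply Nat.le_of_mul_le_mul_right _ hfac
        calc 𝒬.card * 2 ^ (k * s) * (k * s).factorial
            = 𝒬.card * (k * s).factorial * 2 ^ (k * s) := by ring
          _ = (univ.filter (fun π => part k s π ∈ 𝒬)).card * All.card * 2 ^ (k * s) := by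
              rw [← hunif]
          _ = ((univ.filter (fun π => part k s π ∈ 𝒬)).card * 2 ^ (k * s)) * All.card := by ring
          _ ≤ (C.size * (loss k s f K * (k * s).factorial)) * All.card :=
              Nat.mul_le_mul_right _ hcore
          _ = C.size * loss k s f K * All.card * (k * s).factorial := by ring
      have h1R : (𝒬.card : ℝ) * 2 ^ (k * s) ≤ C.size * loss k s f K * All.card := by
        exact_mod_cast h1
      rw [← hn] at hloss
      have hlpos : (0 : ℝ) < loss k s f K := by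
        have h2 : 0 < loss k s f K := by
          unfold loss
          have : 0 < f := hf
          have : 0 < K := hK1
          positivity
        exact_mod_cast h2
      have h3 : (𝒬.card : ℝ) * (2 : ℝ) ^ ((1 - ε / 2) * n) * loss k s f K
          ≤ C.size * All.card * loss k s f K := by
        calc (𝒬.card : ℝ) * (2 : ℝ) ^ ((1 - ε / 2) * n) * loss k s f K
            = (𝒬.card : ℝ) * (loss k s f K * (2 : ℝ) ^ ((1 - ε / 2) * n)) := by ring
          _ ≤ (𝒬.card : ℝ) * 2 ^ (k * s) :=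
              mul_le_mul_of_nonneg_left hloss.le (Nat.cast_nonneg _)
          _ ≤ C.size * loss k s f K * All.card := h1R
          _ = C.size * All.card * loss k s f K := by ring
      exact le_of_mul_le_mul_right h3 hlpos
    · push Not at hsize
      have h4 : (2 : ℝ) ^ ((1 - ε / 2) * n) ≤ 2 ^ (k * s) := by
        calc (2 : ℝ) ^ ((1 - ε / 2) * n) ≤ (2 : ℝ) ^ n := by
              apply Real.rpow_le_rpow_of_exponent_le (by norm_num)
              nlinarith
          _ = 2 ^ (k * s) := by rw [hn, Real.rpow_natCast]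
      have h5 : (2 : ℝ) ^ (k * s) ≤ C.size := by exact_mod_cast hsize.le
      calc (𝒬.card : ℝ) * (2 : ℝ) ^ ((1 - ε / 2) * n) ≤ All.card * C.size := by
            apply mul_le_mul h𝒬le (h4.trans h5) (by positivity) (Nat.cast_nonneg _)
        _ = C.size * All.card := by ring
  rw [div_mul_eq_mul_div, div_le_iff₀ hAllR]
  exact (mul_le_mul_of_nonneg_left hfrac (Nat.cast_nonneg _)).trans hgoal

end Pool.Agent.T9h20.SC
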