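import Pool.Agent.T9h20.SC.Defs

/-!
Statements of the pieces (Prop definitions).
-/

namespace Pool.Agent.T9h20.SC

open Finset

/-- P1. Robust pair shattering (Natarajan's lemma with multiplicities).
Induction on `n`: for `ω` on `Fin (n+1) → Λ` let `ω_a z = ω (Fin.cons a z)`; use
`∑_a x_a ≤ max_a x_a + ∑_{(a,b), a ≠ b} min x_a x_b` and the weights `max_a ω_a` (same `k`) and
`min ω_a ω_b` (`k - 1`, add the coordinate `0` with the labels `a`, `b`). -/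
def StShatter : Prop := ∀ (Λ : Type) [Fintype Λ] [DecidableEq Λ] (X θ : ℕ), 1 ≤ X →
  ∀ (n k : ℕ) (ω : (Fin n → Λ) → ℕ), (∀ τ, ω τ ≤ θ) →
    θ * X ^ k * (X + Fintype.card Λ ^ 2) ^ n < (∑ τ, ω τ) * X ^ n →
    ∃ (S : Finset (Fin n)) (f g : Fin n → Λ), S.card = k ∧ (∀ j ∈ S, f j ≠ g j) ∧
      ∀ J ⊆ S, θ ≤ ∑ τ ∈ univ.filter
        (fun τ : Fin n → Λ => ∀ j ∈ S, τ j = if j ∈ J then g j else f j), ω τ

/-- P2. If `Y ⊆ (ZMod p)^n` is constant outside `S` and for every `J ⊆ S` the sums over `J` miss a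
value, then `Y` is small. Proof: otherwise StShatter (`θ = 1`, `k = p - 1`, `ω` the indicator of
`Y`) gives a pair-shattered set `S'` with `p - 1` elements, `S' ⊆ S`; by the Cauchy-Davenport
theorem the sums `∑_{j ∈ S'} w j` take all values. -/
def StFiber : Prop := ∀ (p : ℕ) [Fact p.Prime] (X : ℕ), 1 ≤ X → ∀ (n : ℕ) (S : Finset (Fin n))
  (Y : Finset (Fin n → ZMod p)), (∀ w ∈ Y, ∀ w' ∈ Y, ∀ j, j ∉ S → w j = w' j) →
  (∀ J ⊆ S, ∃ y, ∀ w ∈ Y, ∑ j ∈ J, w j ≠ y) →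
  Y.card * X ^ n ≤ X ^ (p - 1) * (X + p ^ 2) ^ n

open Classical in
/-- P6. The main counting lemma (helper20). -/
def StClaim : Prop := ∀ (p : ℕ) [Fact p.Prime] (Λ : Type) [Fintype Λ] [DecidableEq Λ] [Zero Λ]
  (n X K k G : ℕ), 1 ≤ X → 1 ≤ k →
  2 * X ^ (Fintype.card Λ ^ 2 * k) * (X + Fintype.card Λ ^ 2) ^ n ≤ K * X ^ n →
  (∀ (S : Finset (Fin n)) (Y : Finset (Fin n → ZMod p)),
    (∀ w ∈ Y, ∀ w' ∈ Y, ∀ j, j ∉ S → w j = w' j) →
    (∀ J ⊆ S, ∃ y, ∀ w ∈ Y, ∑ j ∈ J, w j ≠ y) → Y.card ≤ G) →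
  ∀ (α : Type) (m : ℕ) (A : Finset Λ), A.card ≤ m → ∀ (I : Finset α) (t : α → Fin n → Λ)
  (s : Fin n → Λ) (φ : Λ → Λ), φ 0 = 0 → (∀ i ∈ I, ∀ j, φ (t i j) = s j) →
  (∀ i ∈ I, ∀ j, t i j ∈ A) → I.Nonempty →
  (∀ s' : Fin n → Λ, Ref s' s → ¬ Ref s s' →
    (I.filter (fun i => Ref (t i) s')).card * K ^ m ≤ I.card) →
  (univ.filter (fun w : Fin n → ZMod p => Ev w s ∧ ∀ i ∈ I, ¬ Ev w (t i))).card ≤
    (2 ^ k + 1) ^ m * (p ^ (n + 1 - k) * G)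

/-- P3a. Refinement and number of parts. -/
def StRank : Prop := ∀ (Λ : Type) [Fintype Λ] [DecidableEq Λ] [Zero Λ] (n : ℕ)
  (τ s : Fin n → Λ), Ref τ s → rk s ≤ rk τ ∧ (rk τ ≤ rk s → Ref s τ)

open Classical in
/-- P3b. Plucking. Let `ℓ = card Λ`. Among the `s` with `Ref s τ₀` choose one which maximises
`#{t ∈ T | Ref t s} * D ^ rk s`; `LK` consists of the `t ∈ T` with `Ref t s`: it has more than
`D ≥ ℓ ^ ℓ` members, so (all have the same rank `r`) none of them is equivalent to `s` (otherwise all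
of them are renamings of `s`, at most `ℓ ^ ℓ`); by pigeonhole `ℓ ^ ℓ * #LK' ≥ #LK` where `LK'` are
the `t` with `s = φ ∘ t` for one fixed `φ : Λ → Λ`, `φ 0 = 0`; apply StClaim with `A = univ`,
`m = ℓ`, `I = LK'`. -/
def StPluck : Prop := ∀ (p : ℕ) [Fact p.Prime] (Λ : Type) [Fintype Λ] [DecidableEq Λ] [Zero Λ]
  (n K D F : ℕ), 1 ≤ K → Fintype.card Λ ^ Fintype.card Λ * K ^ Fintype.card Λ ≤ D →
  -- the conclusion of StClaim for `α = Fin n → Λ`, `t = id`, `A = univ`, `m = card Λ`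
  (∀ (I : Finset (Fin n → Λ)) (s : Fin n → Λ) (φ : Λ → Λ), φ 0 = 0 →
    (∀ i ∈ I, ∀ j, φ (i j) = s j) → I.Nonempty →
    (∀ s' : Fin n → Λ, Ref s' s → ¬ Ref s s' →
      (I.filter (fun i => Ref i s')).card * K ^ Fintype.card Λ ≤ I.card) →
    (univ.filter (fun w : Fin n → ZMod p => Ev w s ∧ ∀ i ∈ I, ¬ Ev w i)).card ≤ F) →
  ∀ (T : Finset (Fin n → Λ)) (τ₀ : Fin n → Λ) (r : ℕ), (∀ t ∈ T, Ref t τ₀ ∧ rk t = r) →
  D ^ Fintype.card Λ < T.card →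
  ∃ s : Fin n → Λ, ∃ L ⊆ T, L.Nonempty ∧ Ref s τ₀ ∧ (∀ t ∈ L, Ref t s ∧ ¬ Ref s t) ∧
    (univ.filter (fun w : Fin n → ZMod p => Ev w s ∧ ∀ t ∈ L, ¬ Ev w t)).card ≤ F

/-- P4. Few permutations `π` have the property that `g` is constant on the classes of `x ∘ π`, if no
value of `g` is taken more than `n / 2` times. -/
def StCross : Prop := ∀ (n k : ℕ) (Γ : Type) [Fintype Γ] [DecidableEq Γ] [Nonempty Γ]
  (x : Fin n → Fin k) (g : Fin n → Γ), (∀ c, 2 * (univ.filter (fun i => g i = c)).card ≤ n) →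
  (univ.filter (fun π : Equiv.Perm (Fin n) => ∀ i j, x (π i) = x (π j) → g i = g j)).card * 2 ^ n
    ≤ Fintype.card Γ ^ k * ((n + 1) * n.factorial)

/-- P7. -/
def StNeg : Prop := ∀ (p : ℕ) [Fact p.Prime] (Λ : Type) [Fintype Λ] [DecidableEq Λ] [Zero Λ]
  (n : ℕ) (τ : Fin n → Λ) (i₀ : Fin n), τ i₀ = 0 →
  ∃ Z : Finset (Fin n → ZMod p), (∀ w ∈ Z, Ev w τ ∧ ∑ i, w i = 1) ∧
    p ^ n ≤ p ^ Fintype.card Λ * Z.card

/-- P8. Common refinement. -/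
def StJoin : Prop := ∀ (n k : ℕ) (x : Fin n → Fin k) (π : Equiv.Perm (Fin n))
  (a b : Fin n → Fin (k + 1)), Pos x π a → Pos x π b →
  2 * (univ.filter (fun i => a i ≠ 0 ∨ b i ≠ 0)).card ≤ n →
  ∃ c : Fin n → Fin (k + 1), Ok c ∧ Pos x π c ∧ Ref c a ∧ Ref c b

open Classical in
/-- P5. The approximation method, abstractly, for monotone real circuits with gates of fan-in at
most `f` (model: T9h20/W/{Approx,Lost,Circ}.lean, where the families approximate `{value ≤ t}`; here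
they approximate `{t ≤ value}` and are antitone in `t`). A family `U` of ok terms is closed if it
contains every ok `τ` for which at most `Δ` of the `w` have `neg w τ` and `¬ neg w τ'` for all
`τ' ∈ U`. -/
def StApprox : Prop := ∀ (T X W ι : Type) [Fintype T] [Fintype X] [Fintype W]
  (ok : T → Prop) (R : T → T → Prop) (rank : T → ℕ) (pos : X → T → Prop) (neg : W → T → Prop)
  (Cross : T → T → Prop) (t₀ : T) (M B ρ Δ f : ℕ), 1 ≤ f → 1 ≤ B →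
  (∀ a, R a a) → (∀ a b c, R a b → R b c → R a c) →
  (∀ w a b, neg w a → R a b → neg w b) →
  (∀ x a b, pos x a → R a b → pos x b) →
  ok t₀ → (∀ x, pos x t₀) → (∀ w, neg w t₀) → (∀ t, R t t₀) →
  (∀ t, rank t ≤ M) → (∀ a b, R a b → ¬ R b a → rank b < rank a) →
  (∀ a b, ok a → R a b → ok b) →
  (∀ x a b, ok a → ok b → pos x a → pos x b → ¬ Cross a b →
    ∃ c, ok c ∧ pos x c ∧ R c a ∧ R c b) →
  (∀ a b, ok a → ok b → Cross a b → (univ.filter (fun x => pos x a ∧ pos x b)).card ≤ ρ) →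
  (∀ (S : Finset T) (τ : T) (r : ℕ), (∀ t ∈ S, ok t ∧ R t τ ∧ rank t = r) → B < S.card →
    ∃ s, ∃ L ⊆ S, L.Nonempty ∧ R s τ ∧ (∀ t ∈ L, R t s ∧ ¬ R s t) ∧
      (univ.filter (fun w => neg w s ∧ ∀ t ∈ L, ¬ neg w t)).card ≤ Δ) →
  ∀ (C : FCircuit ι), C.FanInLe f → ∀ (xpos : X → ι → ℝ) (xneg : W → ι → ℝ)
  (base : ι → ℝ → Finset T), (∀ i t, ∀ τ ∈ base i t, ok τ) →
  (∀ i s t, s ≤ t → base i t ⊆ base i s) →
  (∀ i x t, t ≤ xpos x i → ∃ τ ∈ base i t, pos x τ) →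
  (∀ i w t, (∃ τ ∈ base i t, neg w τ) → t ≤ xneg w i) →
  ∃ L : Finset X, L.card ≤ C.size * ((2 * f * (M + 1) * B) ^ (M + 1) * ρ) ∧
    ∀ x, x ∉ L → ∃ τ, ok τ ∧ pos x τ ∧
      (univ.filter (fun w => neg w τ ∧ C.eval (xneg w) < C.eval (xpos x))).card
        ≤ (C.size + 1) * ((f + 1) * ((Fintype.card T + 1) * (Fintype.card T * Δ)))

end Pool.Agent.T9h20.SC
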