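import Pool.Agent.T9h20.SC.Main
import Pool.Agent.T9h18.SC.Approx
import Pool.Agent.T9h18.SC.Cross

namespace Pool.Agent.T9h20.SC

theorem stApprox : StApprox := by
  intro T X W ι _ _ _ ok R rank pos neg Cross t₀ M B ρ Δ f h1 h2 h3 h4 h5 h6 h7 h8 h9 h10 h11 h12
    h13 h14 h15 h16 C hC xpos xneg base h17 h18 h19 h20
  exact Pool.Agent.T9h18.SC.approx T X W ι ok R rank pos neg Cross t₀ M B ρ Δ f h1 h2 h3 h4 h5 h6
    h7 h8 h9 h10 h11 h12 h13 h14 h15 h16 C hC xpos xneg base h17 h18 h19 h20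

end Pool.Agent.T9h20.SC
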